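import Pool.Agent.H34.TAM.Stmts3

/-!
Board per: the largest seminorm with given bounds on a spanning family; rows MUX and NUX.
-/

set_option autoImplicit false

noncomputable section

open scoped TensorProduct

namespace Pool.PER

open Pool.CGR Pool.CGS Pool.TAM Pool.AUT MulOpposite

namespace H31

section

variable {V ι : Type} [AddCommGroup V] [Module ℂ V]

/-- the cost of a combination -/
def cost (w : ι → ℝ) (l : ι →₀ ℂ) : ℝ := l.sum fun i c => ‖c‖ * w i

/-- the combination -/
def lc (g : ι → V) (l : ι →₀ ℂ) : V := l.sum fun i c => c • g i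

theorem cost_of_subset (w : ι → ℝ) (l : ι →₀ ℂ) (s : Finset ι) (h : l.support ⊆ s) :
    cost w l = ∑ i ∈ s, ‖l i‖ * w i := by
  unfold cost
  exact Finsupp.sum_of_support_subset l h _ (by intro i _; simp)

theorem cost_nonneg {w : ι → ℝ} (hw : ∀ i, 0 ≤ w i) (l : ι →₀ ℂ) : 0 ≤ cost w l :=
  Finset.sum_nonneg fun i _ => mul_nonneg (norm_nonneg _) (hw i)

theorem cost_add {w : ι → ℝ} (hw : ∀ i, 0 ≤ w i) (l l' : ι →₀ ℂ) :
    cost w (l + l') ≤ cost w l + cost w l' := by
  classical
  rw [cost_of_subset w (l + l') (l.support ∪ l'.support) Finsupp.support_add,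
    cost_of_subset w l (l.support ∪ l'.support) Finset.subset_union_left,
    cost_of_subset w l' (l.support ∪ l'.support) Finset.subset_union_right,
    ← Finset.sum_add_distrib]
  refine Finset.sum_le_sum fun i _ => ?_
  rw [← add_mul]
  exact mul_le_mul_of_nonneg_right (by rw [Finsupp.add_apply]; exact norm_add_le _ _) (hw i)

theorem cost_smul (w : ι → ℝ) (c : ℂ) (l : ι →₀ ℂ) : cost w (c • l) = ‖c‖ * cost w l := by
  rw [cost_of_subset w (c • l) l.support Finsupp.support_smul,
    cost_of_subset w l l.support (Finset.Subset.refl _), Finset.mul_sum]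
  refine Finset.sum_congr rfl fun i _ => ?_
  rw [Finsupp.smul_apply, smul_eq_mul, norm_mul, mul_assoc]

theorem lc_add (g : ι → V) (l l' : ι →₀ ℂ) : lc g (l + l') = lc g l + lc g l' := by
  classical
  unfold lc
  exact Finsupp.sum_add_index' (by simp) (by intro i a b; exact add_smul a b (g i))

theorem lc_smul (g : ι → V) (c : ℂ) (l : ι →₀ ℂ) : lc g (c • l) = c • lc g l := by
  unfold lc
  rw [Finsupp.sum_smul_index (by simp), Finsupp.smul_sum]
  exact Finset.sum_congr rfl fun i _ => mul_smul c (l i) (g i)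

theorem exists_max (g : ι → V) (w : ι → ℝ) (hw : ∀ i, 0 ≤ w i)
    (hg : ∀ v : V, v ∈ Submodule.span ℂ (Set.range g)) :
    ∃ μ : V → ℝ, (∀ q, 0 ≤ μ q) ∧ (∀ q q', μ (q + q') ≤ μ q + μ q') ∧
      (∀ (c : ℂ) (q : V), μ (c • q) ≤ ‖c‖ * μ q) ∧ (∀ i, μ (g i) ≤ w i) ∧
      ∀ (X : V → ℝ) (K : ℝ), 0 ≤ K → (∀ q q', X (q + q') ≤ X q + X q') →
        (∀ (c : ℂ) (q : V), X (c • q) ≤ ‖c‖ * X q) →
        (∀ i, X (g i) ≤ K * w i) → ∀ q, X q ≤ K * μ q := by
  classical
  have hne : ∀ q : V, (cost w '' {l | lc g l = q}).Nonempty := by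
    intro q
    obtain ⟨l, hl⟩ := Finsupp.mem_span_range_iff_exists_finsupp.1 (hg q)
    exact ⟨_, l, hl, rfl⟩
  have hbd : ∀ q : V, BddBelow (cost w '' {l | lc g l = q}) := by
    intro q
    refine ⟨0, ?_⟩
    rintro _ ⟨l, _, rfl⟩
    exact cost_nonneg hw l
  have hle : ∀ (q : V) (l : ι →₀ ℂ), lc g l = q → sInf (cost w '' {l | lc g l = q}) ≤ cost w l :=
    fun q l hl => csInf_le (hbd q) ⟨l, hl, rfl⟩
  refine ⟨fun q => sInf (cost w '' {l | lc g l = q}), ?_, ?_, ?_, ?_, ?_⟩
  · intro q
    refine le_csInf (hne q) ?_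
    rintro _ ⟨l, _, rfl⟩
    exact cost_nonneg hw l
  · intro q q'
    have h1 : ∀ l' : ι →₀ ℂ, lc g l' = q' →
        sInf (cost w '' {l | lc g l = q + q'}) - cost w l' ≤ sInf (cost w '' {l | lc g l = q}) := by
      intro l' hl'
      refine le_csInf (hne q) ?_
      rintro _ ⟨l, hl, rfl⟩
      have h2 := hle (q + q') (l + l') (by rw [lc_add, hl', show lc g l = q from hl])
      have h3 := cost_add hw l l'
      linarith
    have h4 : sInf (cost w '' {l | lc g l = q + q'}) - sInf (cost w '' {l | lc g l = q}) ≤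
        sInf (cost w '' {l | lc g l = q'}) := by
      refine le_csInf (hne q') ?_
      rintro _ ⟨l', hl', rfl⟩
      have := h1 l' hl'
      linarith
    show sInf (cost w '' {l | lc g l = q + q'}) ≤ sInf (cost w '' {l | lc g l = q}) +
      sInf (cost w '' {l | lc g l = q'})
    linarith
  · intro c q
    show sInf (cost w '' {l | lc g l = c • q}) ≤ ‖c‖ * sInf (cost w '' {l | lc g l = q})
    by_cases hc : c = 0
    · have h1 := hle (c • q) 0 (by rw [hc, zero_smul]; simp [lc])
      have h2 : cost w (0 : ι →₀ ℂ) = 0 := by simp [cost]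
      rw [h2] at h1
      rw [hc, norm_zero, zero_mul]
      rw [hc] at h1
      exact h1
    · have hcn : 0 < ‖c‖ := norm_pos_iff.2 hc
      rw [← div_le_iff₀' hcn]
      refine le_csInf (hne q) ?_
      rintro _ ⟨l, hl, rfl⟩
      rw [div_le_iff₀' hcn, ← cost_smul]
      exact hle (c • q) (c • l) (by rw [lc_smul, show lc g l = q from hl])
  · intro i
    have h1 := hle (g i) (Finsupp.single i 1) (by simp [lc])
    have h2 : cost w (Finsupp.single i (1 : ℂ)) = w i := by simp [cost]
    rw [h2] at h1
    exact h1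
  · intro X K hK hadd hsm hgen q
    show X q ≤ K * sInf (cost w '' {l | lc g l = q})
    have h0 : X 0 ≤ 0 := by
      have := hsm 0 0
      simpa using this
    have h1 : ∀ l : ι →₀ ℂ, X (lc g l) ≤ K * cost w l := by
      intro l
      have h2 : ∀ s : Finset ι, X (∑ i ∈ s, l i • g i) ≤ K * ∑ i ∈ s, ‖l i‖ * w i := by
        intro s
        induction s using Finset.induction_on with
        | empty => simpa using h0
        | insert a s ha ih =>
          rw [Finset.sum_insert ha, Finset.sum_insert ha, mul_add]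
          refine (hadd _ _).trans (add_le_add ?_ ih)
          refine (hsm _ _).trans ?_
          calc ‖l a‖ * X (g a) ≤ ‖l a‖ * (K * w a) :=
                mul_le_mul_of_nonneg_left (hgen a) (norm_nonneg _)
            _ = K * (‖l a‖ * w a) := by ring
      exact h2 l.support
    rcases hK.eq_or_lt with hK0 | hKpos
    · obtain ⟨l, hl⟩ := Finsupp.mem_span_range_iff_exists_finsupp.1 (hg q)
      have h2 := h1 l
      rw [show lc g l = q from hl, ← hK0, zero_mul] at h2
      rw [← hK0, zero_mul]
      exact h2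
    · rw [← div_le_iff₀' hKpos]
      refine le_csInf (hne q) ?_
      rintro _ ⟨l, hl, rfl⟩
      rw [div_le_iff₀' hKpos, ← show lc g l = q from hl]
      exact h1 l

end

theorem wd_append {m : ℕ} (u v : List (Fin m)) : wd (u ++ v) = wd u * wd v := by
  unfold wd
  rw [List.map_append, List.prod_append]

theorem wd_nil {m : ℕ} : wd ([] : List (Fin m)) = 1 := rfl

theorem wd_one {m : ℕ} (k : Fin m) : wd [k] = io k := by
  unfold wd
  simp

theorem span_wd (m : ℕ) (q : Fr m) : q ∈ Submodule.span ℂ (Set.range (wd : List (Fin m) → Fr m)) := by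
  refine FreeAlgebra.induction ℂ (Fin m) (motive := fun q => q ∈ Submodule.span ℂ (Set.range (wd : List (Fin m) → Fr m))) ?_ ?_ ?_ ?_ q
  · intro c
    rw [Algebra.algebraMap_eq_smul_one]
    exact Submodule.smul_mem _ _ (Submodule.subset_span ⟨[], wd_nil⟩)
  · intro k
    exact Submodule.subset_span ⟨[k], wd_one k⟩
  · intro a b ha hb
    induction ha using Submodule.span_induction with
    | mem a ha =>
      obtain ⟨u, rfl⟩ := ha
      induction hb using Submodule.span_induction with
      | mem b hb =>
        obtain ⟨v, rfl⟩ := hb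
        exact Submodule.subset_span ⟨u ++ v, wd_append u v⟩
      | zero => rw [mul_zero]; exact Submodule.zero_mem _
      | add b b' _ _ h1 h2 => rw [mul_add]; exact Submodule.add_mem _ h1 h2
      | smul c b _ h1 => rw [mul_smul_comm]; exact Submodule.smul_mem _ _ h1
    | zero => rw [zero_mul]; exact Submodule.zero_mem _
    | add a a' _ _ h1 h2 => rw [add_mul]; exact Submodule.add_mem _ h1 h2
    | smul c a _ h1 => rw [smul_mul_assoc]; exact Submodule.smul_mem _ _ h1
  · intro a b ha hb
    exact Submodule.add_mem _ ha hb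

theorem span_te (m : ℕ) (z : Te m) : z ∈ Submodule.span ℂ
    (Set.range fun y : List (Fin m) × List (Fin m) => (wd y.1 ⊗ₜ[ℂ] op (wd y.2) : Te m)) := by
  induction z using TensorProduct.induction_on with
  | zero => exact Submodule.zero_mem _
  | add a b ha hb => exact Submodule.add_mem _ ha hb
  | tmul a b =>
    have ha := span_wd m a
    have hb := span_wd m (unop b)
    rw [← op_unop b]
    generalize unop b = b' at hb
    induction ha using Submodule.span_induction with
    | mem a ha =>
      obtain ⟨u, rfl⟩ := ha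
      induction hb using Submodule.span_induction with
      | mem b hb =>
        obtain ⟨v, rfl⟩ := hb
        exact Submodule.subset_span ⟨(u, v), rfl⟩
      | zero => rw [op_zero, TensorProduct.tmul_zero]; exact Submodule.zero_mem _
      | add b b' _ _ h1 h2 =>
        rw [op_add, TensorProduct.tmul_add]; exact Submodule.add_mem _ h1 h2
      | smul c b _ h1 =>
        rw [op_smul, TensorProduct.tmul_smul]; exact Submodule.smul_mem _ _ h1
    | zero => rw [TensorProduct.zero_tmul]; exact Submodule.zero_mem _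
    | add a a' _ _ h1 h2 => rw [TensorProduct.add_tmul]; exact Submodule.add_mem _ h1 h2
    | smul c a _ h1 => rw [← TensorProduct.smul_tmul']; exact Submodule.smul_mem _ _ h1

end H31

end Pool.PER
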