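import Pool.Agent.H34.TAM.Stmts3

set_option autoImplicit false

noncomputable section

open scoped TensorProduct

namespace Pool.PER

open Pool.CGR Pool.CGS Pool.TAM Pool.AUT MulOpposite

theorem mum_thm : MUMStmt := by
  intro m r μ hr hμ
  have hword : ∀ (u : List (Fin m)) (b : Fr m), μ (wd u * b) ≤ r ^ u.length * μ b := by
    intro u b
    refine hμ.max (fun b => μ (wd u * b)) (r ^ u.length) (pow_nonneg hr _) ?_ ?_ ?_ b
    · intro q q'
      show μ (wd u * (q + q')) ≤ μ (wd u * q) + μ (wd u * q')
      rw [mul_add]
      exact hμ.add _ _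
    · intro c q
      show μ (wd u * (c • q)) ≤ ‖c‖ * μ (wd u * q)
      rw [mul_smul_comm]
      exact hμ.smul _ _
    · intro v
      show μ (wd u * wd v) ≤ r ^ u.length * r ^ v.length
      have h : (wd u * wd v : Fr m) = wd (u ++ v) := by
        unfold wd
        rw [List.map_append, List.prod_append]
      rw [h, ← pow_add, ← List.length_append]
      exact hμ.gen _
  refine ⟨?_, ?_, ?_, ?_⟩
  · have h := hμ.gen []
    simpa [wd] using h
  · intro a b
    have h : μ (a * b) ≤ μ b * μ a := by
      refine hμ.max (fun a => μ (a * b)) (μ b) (hμ.nonneg b) ?_ ?_ ?_ a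
      · intro q q'
        show μ ((q + q') * b) ≤ μ (q * b) + μ (q' * b)
        rw [add_mul]
        exact hμ.add _ _
      · intro c q
        show μ ((c • q) * b) ≤ ‖c‖ * μ (q * b)
        rw [smul_mul_assoc]
        exact hμ.smul _ _
      · intro u
        show μ (wd u * b) ≤ μ b * r ^ u.length
        rw [mul_comm (μ b)]
        exact hword u b
    rwa [mul_comm (μ b)] at h
  · intro k
    have h := hμ.gen [k]
    simpa [wd] using h
  · refine le_antisymm ?_ (hμ.nonneg 0)
    have h := hμ.smul 0 0
    simpa using h

end Pool.PER
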