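import Pool.Agent.H31.PER.Gen

set_option autoImplicit false

noncomputable section

open scoped TensorProduct

namespace Pool.PER

open Pool.CGR Pool.CGS Pool.TAM Pool.AUT MulOpposite

theorem mux_thm : MUXStmt := by
  intro m r hr
  obtain ⟨μ, h1, h2, h3, h4, h5⟩ := H31.exists_max (wd : List (Fin m) → Fr m)
    (fun u => r ^ u.length) (fun u => pow_nonneg hr _) (H31.span_wd m)
  exact ⟨μ, ⟨h1, h2, h3, h4, h5⟩⟩

end Pool.PER
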