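import Pool.Agent.H31.PER.Gen

set_option autoImplicit false

noncomputable section

open scoped TensorProduct

namespace Pool.PER

open Pool.CGR Pool.CGS Pool.TAM Pool.AUT MulOpposite

theorem nux_thm : NUXStmt := by
  intro m r hr
  obtain ⟨ν, h1, h2, h3, h4, h5⟩ := H31.exists_max
    (fun y : List (Fin m) × List (Fin m) => (wd y.1 ⊗ₜ[ℂ] op (wd y.2) : Te m))
    (fun y => wt r y.1 y.2)
    (fun y => mul_nonneg (by positivity) (pow_nonneg hr _)) (H31.span_te m)
  exact ⟨ν, ⟨h1, h2, h3, fun u v => h4 (u, v),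
    fun X K hK ha hs hg => h5 X K hK ha hs fun y => hg y.1 y.2⟩⟩

end Pool.PER
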